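import Pool.Agent.H630QS.Model
import Pool.Agent.H630SD.Gad

/-! From parity systems to quantified instances of a hard language (helper630) -/

open scoped Classical
open Finset

namespace H630QS

open H630VC H630XR H630GI H630SD

variable {ι : Type} {ar : ι → ℕ} {rel : ∀ i, Set (Fin (ar i) → Bool)}

theorem pol_relP {r : ℕ} (f : (Fin r → Bool) → Bool) (hf : Pol rel f)
    (h0 : f (fun _ => false) = false) (h1 : f (fun _ => true) = true) : Pol (relP rel) f := by
  intro i t ht
  rcases i with i | b
  · exact hf i t ht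
  · intro j
    have : (fun s => t s j) = fun _ => b := by
      funext s
      exact ht s j
    show f (fun s => t s j) = b
    rw [this]
    cases b
    · exact h0
    · exact h1

theorem not_easy_relP (hE : ¬ QEasy rel) : ¬ Easy (relP rel) := by
  rintro (h | h | h | h | h)
  · have := h (.inr true) (fun _ _ => true) (fun _ _ => rfl) (0 : Fin 1)
    exact Bool.noConfusion this
  · have := h (.inr false) (fun _ _ => false) (fun _ _ => rfl) (0 : Fin 1)
    exact Bool.noConfusion this
  · exact hE (Or.inl fun i t ht => h (.inl i) t ht)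
  · exact hE (Or.inr (Or.inl fun i t ht => h (.inl i) t ht))
  · exact hE (Or.inr (Or.inr fun i t ht => h (.inl i) t ht))

/-- polymorphisms that distinguish the two constant tuples preserve the equations -/
theorem col_polQ (hE : ¬ QEasy rel) (β : Bool) (f : (Fin 8 → Bool) → Bool) (hf : Pol rel f)
    (hne : f (fun _ => false) ≠ f (fun _ => true)) :
    xor (xor (f (col β 0)) (f (col β 1))) (xor (f (col β 2)) (f (col β 3))) = β := by
  have hE' := not_easy_relP hE
  cases h0 : f (fun _ => false) with
  | false =>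
    have h1 : f (fun _ => true) = true := by
      rw [h0] at hne
      cases h : f (fun _ => true)
      · exact absurd h.symm hne
      · rfl
    exact col_pol hE' β f (pol_relP f hf h0 h1)
  | true =>
    have h1 : f (fun _ => true) = false := by
      rw [h0] at hne
      cases h : f (fun _ => true)
      · rfl
      · exact absurd h.symm hne
    have hu : Pol rel (fun x : Fin 1 → Bool => f fun _ => x 0) :=
      t1_comp hf (fun _ x => x 0) (fun _ => t1_proj 0)
    have e : (fun x : Fin 1 → Bool => f fun _ => x 0) = fun x => !x 0 := by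
      funext x
      cases hx : x 0
      · exact h0
      · exact h1
    rw [e] at hu
    have hn : Pol rel (fun x : Fin 8 → Bool => !f x) := t1_comp hu (fun _ x => f x) (fun _ => hf)
    have h := col_pol hE' β (fun x => !f x) (pol_relP _ hn (by rw [h0]; rfl) (by rw [h1]; rfl))
    revert h
    generalize f (col β 0) = A
    generalize f (col β 1) = B
    generalize f (col β 2) = C
    generalize f (col β 3) = D
    revert A B C D β
    decide

theorem colv_bal (β : Bool) (j : Fin 4) (a : Bool) : ∃ v : Fin 3 → Bool, colv β j v ≠ a := by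
  revert β j a
  decide

theorem col_ne_const (β : Bool) (j : Fin 4) (a : Bool) : col β j ≠ fun _ => a := by
  intro h
  obtain ⟨v, hv⟩ := colv_bal β j a
  apply hv
  have := congrFun h (en8.symm v)
  simpa [col] using this

/-- the choice of the variables for the values of the tables at the two constant points -/
theorem exists_plan (rel : ∀ i, Set (Fin (ar i) → Bool)) : ∃ z0 z1 : Fin 3,
    (∃ x0 : Bool, ∀ u : Bool, ∃ w : Bool, ∃ g : Bool → Bool,
      Pol rel (fun x : Fin 1 → Bool => g (x 0)) ∧ g false = (![x0, u, w] : Fin 3 → Bool) z0 ∧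
      g true = (![x0, u, w] : Fin 3 → Bool) z1) ∧
    ∀ x : Fin 3 → Bool, x 1 = !x 0 →
      Pol rel (fun y : Fin 1 → Bool => if y 0 then x z1 else x z0) → x z0 ≠ x z1 := by
  by_cases h0 : Pol rel (fun _ : Fin 1 → Bool => false)
  · refine ⟨0, 1, ⟨false, fun u => ⟨false, fun b => b && u, ?_, by simp, by simp⟩⟩, ?_⟩
    · cases u
      · simpa using h0
      · simpa using t1_proj (rel := rel) (0 : Fin 1)
    · intro x hx _
      rw [hx]
      cases x 0 <;> decide
  · by_cases h1 : Pol rel (fun _ : Fin 1 → Bool => true)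
    · refine ⟨1, 0, ⟨true, fun u => ⟨false, fun b => b || u, ?_, by simp, by simp⟩⟩, ?_⟩
      · cases u
        · simpa using t1_proj (rel := rel) (0 : Fin 1)
        · simpa using h1
      · intro x hx _
        rw [hx]
        cases x 0 <;> decide
    · refine ⟨0, 2, ⟨false, fun u => ⟨true, fun b => b, t1_proj 0, by simp, by simp⟩⟩, ?_⟩
      intro x _ hx hne
      have : (fun y : Fin 1 → Bool => if y 0 then x 2 else x 0) = fun _ => x 0 := by
        funext y
        rw [← hne]
        cases y 0 <;> rfl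
      rw [this] at hx
      cases h2 : x 0
      · rw [h2] at hx; exact h0 hx
      · rw [h2] at hx; exact h1 hx

variable {k b N : ℕ}

/-- the three special variables: the first variable, the universal one and one more -/
def sp (hN : 3 ≤ N) (i : Fin 3) : Fin N := ⟨i.1, by omega⟩

/-- the variable at the point `p` of the table of the clause `c` of the block `m` -/
noncomputable def loc (hN : 3 ≤ N) (z0 z1 : Fin 3) (e : Wv k b → Fin N) (m : Fin k)
    (c : Cl (Fin b) 4) (p : Fin 8 → Bool) : Fin N :=
  if p = fun _ => false then sp hN z0 else if p = fun _ => true then sp hN z1 else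
    e (m, tau c p)

theorem loc_col (hN : 3 ≤ N) (z0 z1 : Fin 3) (e : Wv k b → Fin N) (m : Fin k)
    (c : Cl (Fin b) 4) (j : Fin 4) :
    loc hN z0 z1 e m c (col (vb c) j) = e (m, .inl (c j).1) := by
  unfold loc
  rw [if_neg (col_ne_const _ _ _), if_neg (col_ne_const _ _ _), tau_col]

variable (rel) in
/-- the constraints that say that the table of `c` is a polymorphism -/
def gadQ (hN : 3 ≤ N) (z0 z1 : Fin 3) (e : Wv k b → Fin N) (m : Fin k) (c : Cl (Fin b) 4) :
    Set (Con ar (Fin N)) :=
  {C | ∃ (i : ι) (t : Fin 8 → Fin (ar i) → Bool), (∀ s, t s ∈ rel i) ∧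
    C = ⟨i, fun j => loc hN z0 z1 e m c fun s => t s j⟩}

variable (rel) in
/-- the instance of a formula -/
def instQ (hN : 3 ≤ N) (z0 z1 : Fin 3) (e : Wv k b → Fin N) (F : BF k b 4) :
    Set (Con ar (Fin N)) :=
  {C | ∃ m, ∃ c ∈ F m, C ∈ gadQ rel hN z0 z1 e m c}

theorem odd_of_true (hE : ¬ QEasy rel) (hN : 3 ≤ N) (z0 z1 : Fin 3)
    (hz : ∀ x : Fin 3 → Bool, x 1 = !x 0 →
      Pol rel (fun y : Fin 1 → Bool => if y 0 then x z1 else x z0) → x z0 ≠ x z1)
    (e : Wv k b → Fin N) (F : BF k b 4)
    (h : QTrue rel (second N) (instQ rel hN z0 z1 e F)) (m : Fin k) :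
    ∃ z : Fin b → Bool, ∀ c ∈ F m, OddSat z c := by
  obtain ⟨X, h1, h2, h3⟩ := h
  set a : Bool := X (fun _ => false) (sp hN 0) with ha
  set y : Fin N → Bool := fun _ => !a with hy
  have e0 : X y (sp hN 0) = a := by
    rw [ha]
    apply h2
    intro w hw hw'
    exfalso
    have e1 : w.1 = 1 := hw
    have e2 : w.1 ≤ 0 := hw'
    omega
  have e1 : X y (sp hN 1) = !a := h1 y (sp hN 1) rfl
  refine ⟨fun v => X y (e (m, .inl v)), fun c hc => ?_⟩
  rw [oddSat_iff4]
  have hf : Pol rel (fun p : Fin 8 → Bool => X y (loc hN z0 z1 e m c p)) := by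
    intro i t ht
    exact h3 y ⟨i, fun j => loc hN z0 z1 e m c fun s => t s j⟩ ⟨m, c, hc, i, t, ht, rfl⟩
  have f0 : X y (loc hN z0 z1 e m c fun _ => false) = X y (sp hN z0) := by
    unfold loc
    rw [if_pos rfl]
  have f1 : X y (loc hN z0 z1 e m c fun _ => true) = X y (sp hN z1) := by
    unfold loc
    rw [if_neg, if_pos rfl]
    intro h
    exact Bool.noConfusion (congrFun h 0)
  have hne : X y (sp hN z0) ≠ X y (sp hN z1) := by
    apply hz (fun i => X y (sp hN i))
    · show X y (sp hN 1) = !X y (sp hN 0)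
      rw [e0, e1]
    · have hu : Pol rel (fun x : Fin 1 → Bool => X y (loc hN z0 z1 e m c fun _ => x 0)) :=
        t1_comp hf (fun _ x => x 0) (fun _ => t1_proj 0)
      have e2 : (fun x : Fin 1 → Bool => X y (loc hN z0 z1 e m c fun _ => x 0)) =
          fun x => if x 0 then X y (sp hN z1) else X y (sp hN z0) := by
        funext x
        cases hx : x 0
        · rw [if_neg Bool.false_ne_true]
          exact f0
        · rw [if_pos rfl]
          exact f1
      rw [← e2]
      exact hu
  have h4 := col_polQ hE (vb c) _ hf (by rw [f0, f1]; exact hne)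
  simp only [loc_col] at h4
  exact h4

theorem true_of_odd (hN : 3 ≤ N) (z0 z1 : Fin 3)
    (hz : ∃ x0 : Bool, ∀ u : Bool, ∃ w : Bool, ∃ g : Bool → Bool,
      Pol rel (fun x : Fin 1 → Bool => g (x 0)) ∧ g false = (![x0, u, w] : Fin 3 → Bool) z0 ∧
      g true = (![x0, u, w] : Fin 3 → Bool) z1)
    (e : Wv k b → Fin N) (he : Function.Injective e) (he3 : ∀ w, 3 ≤ (e w).1) (F : BF k b 4)
    (z : Fin k → Fin b → Bool) (hzF : ∀ m, ∀ c ∈ F m, OddSat (z m) c) :
    QTrue rel (second N) (instQ rel hN z0 z1 e F) := by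
  obtain ⟨x0, hx⟩ := hz
  choose w g hg1 hg2 hg3 using hx
  have hs : ∀ (m : Fin k) (c : Cl (Fin b) 4), ∃ s : Fin 8, OddSat (z m) c →
      ∀ j, col (vb c) j s = z m (c j).1 := by
    intro m c
    by_cases h : OddSat (z m) c
    · obtain ⟨s, hs⟩ := col_row (vb c) (fun j => z m (c j).1) ((oddSat_iff4 _ _).1 h)
      exact ⟨s, fun _ => hs⟩
    · exact ⟨0, fun h' => absurd h' h⟩
  choose s hs using hs
  let val : Bool → Wv k b → Bool := fun u v => match v with
    | (m, .inl v) => g u (z m v)
    | (m, .inr (c, p)) => g u (p (s m c))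
  let Z : Bool → Fin N → Bool := fun u v =>
    if h : v.1 < 3 then (![x0, u, w u] : Fin 3 → Bool) ⟨v.1, h⟩ else
      Function.extend e (val u) (fun _ => false) v
  have Zsp : ∀ u i, Z u (sp hN i) = (![x0, u, w u] : Fin 3 → Bool) i := by
    intro u i
    simp only [Z]
    rw [dif_pos (show (sp hN i).1 < 3 from i.2)]
    rfl
  have Ze : ∀ u v, Z u (e v) = val u v := by
    intro u v
    simp only [Z]
    rw [dif_neg (by have := he3 v; omega), he.extend_apply]
  refine ⟨fun y => Z (y (sp hN 1)), ?_, ?_, ?_⟩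
  · intro y v hv
    have : v = sp hN 1 := Fin.ext hv
    rw [this]
    exact Zsp _ _
  · intro y y' v hyy
    by_cases hv : v.1 = 0
    · have : v = sp hN 0 := Fin.ext hv
      rw [this]
      exact (Zsp _ _).trans (Zsp _ _).symm
    · have : y (sp hN 1) = y' (sp hN 1) := hyy _ rfl (by
        show 1 ≤ v.1
        omega)
      simp only [this]
  · rintro y C ⟨m, c, hc, i, t, ht, rfl⟩
    set u := y (sp hN 1) with hu
    have key : ∀ p : Fin 8 → Bool, Z u (loc hN z0 z1 e m c p) = g u (p (s m c)) := by
      intro p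
      unfold loc
      by_cases h0 : p = fun _ => false
      · rw [if_pos h0, Zsp, h0]
        exact (hg2 u).symm
      · rw [if_neg h0]
        by_cases h1 : p = fun _ => true
        · rw [if_pos h1, Zsp, h1]
          exact (hg3 u).symm
        · rw [if_neg h1, Ze]
          by_cases h : ∃ j, p = col (vb c) j
          · obtain ⟨j, rfl⟩ := h
            rw [tau_col]
            show g u (z m (c j).1) = _
            rw [hs m c (hzF m c hc) j]
          · unfold tau
            rw [dif_neg h]
    have e1 : (fun j => Z u (loc hN z0 z1 e m c fun s => t s j)) =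
        fun j => g u (t (s m c) j) := by
      funext j
      rw [key]
    show (fun j => Z u (loc hN z0 z1 e m c fun s => t s j)) ∈ rel i
    rw [e1]
    exact hg1 u i (fun _ => t (s m c)) (fun _ => ht _)

theorem instQ_inputs (hN : 3 ≤ N) (z0 z1 : Fin 3) (e : Wv k b → Fin N)
    (f : Set (Con ar (Fin N)) → ℝ)
    (hf : f ∈ conInputs ar (Fin N)) : (fun F => f (instQ rel hN z0 z1 e F)) ∈ orInputs k b 4 := by
  rcases hf with ⟨C, rfl⟩ | ⟨a, rfl⟩
  · refine Or.inl ⟨univ.filter fun p : Fin k × Cl (Fin b) 4 =>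
      C ∈ gadQ rel hN z0 z1 e p.1 p.2, ?_⟩
    funext F
    have h1 : C ∈ instQ rel hN z0 z1 e F ↔ ∃ p ∈ univ.filter (fun p : Fin k × Cl (Fin b) 4 =>
        C ∈ gadQ rel hN z0 z1 e p.1 p.2), p.2 ∈ F p.1 := by
      constructor
      · rintro ⟨m, c, hc, h⟩
        exact ⟨(m, c), mem_filter.2 ⟨mem_univ _, h⟩, hc⟩
      · rintro ⟨p, hp, hc⟩
        exact ⟨p.1, p.2, hc, (mem_filter.1 hp).2⟩
    rw [← ind_congr h1]
    unfold ind
    by_cases h2 : C ∈ instQ rel hN z0 z1 e F
    · exact (if_pos h2).trans (if_pos h2).symm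
    · exact (if_neg h2).trans (if_neg h2).symm
  · exact Or.inr ⟨a, rfl⟩

end H630QS
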