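import Pool.Agent.H630QS.Gad
import Pool.Agent.H630SD.Low

/-! The lower bound for quantified instances (helper630) -/

open scoped Classical
open Finset Filter

namespace H630QS

open H630VC H630XR H630GI H630SD

variable {ι : Type} {ar : ι → ℕ} {rel : ∀ i, Set (Fin (ar i) → Bool)} {k b : ℕ}

theorem exists_emb {N : ℕ} (hN : k * (b + 4096 * b ^ 4) + 3 ≤ N) :
    ∃ e : Wv k b → Fin N, Function.Injective e ∧ ∀ w, 3 ≤ (e w).1 := by
  have hcard : Fintype.card (Wv k b) ≤ Fintype.card (Fin (N - 3)) := by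
    rw [card_wv, Fintype.card_fin]
    omega
  obtain ⟨e⟩ := Function.Embedding.nonempty_of_card_le hcard
  refine ⟨fun w => ⟨(e w).1 + 3, by have := (e w).2; omega⟩, ?_, ?_⟩
  · intro w w' h
    have h1 : (e w).1 + 3 = (e w').1 + 3 := congrArg (fun v : Fin N => v.1) h
    exact e.injective (Fin.ext (by omega))
  · intro w
    show 3 ≤ (e w).1 + 3
    omega

theorem adv_le {N : ℕ} {R : Type} [Fintype R] [Nonempty R] {ξ : ℝ}
    {f : R → Set (Con ar (Fin N)) → ℝ} (hdec : DecidesQ rel ξ f) : 1 / 2 + ξ ≤ 1 := by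
  have hR : (0 : ℝ) < Fintype.card R := by exact_mod_cast Fintype.card_pos
  have h1 : (1 / 2 + ξ) * Fintype.card R ≤ (Fintype.card R : ℝ) := by
    by_cases h : QTrue rel (second N) (∅ : Set (Con ar (Fin N)))
    · refine ((hdec ∅).1 h).trans ?_
      exact_mod_cast card_le_univ _
    · refine ((hdec ∅).2 h).trans ?_
      exact_mod_cast card_le_univ _
  have h2 : (1 / 2 + ξ) * Fintype.card R ≤ 1 * (Fintype.card R : ℝ) := by
    rw [one_mul]
    exact h1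
  exact le_of_mul_le_mul_right h2 hR

/-- the walk on instances -/
theorem walkQ (hE : ¬ QEasy rel) (hb : 1 ≤ b) (κ S ξ P : ℝ) (m N : ℕ)
    (hd : ∀ l : List (Finset (Cl (Fin b) 4) → ℝ), Prog (orCnf b 4) l →
      (l.length : ℝ) ≤ S → ∀ f ∈ l,
      avg (fun ω : Fin m → Cl (Fin b) 4 => ind (1 ≤ f (univ.image ω))) ≤
        κ + avg fun z : Fin b → Bool => ind (1 ≤ f (oddFormula z)))
    (hN : k * (b + 4096 * b ^ 4) + 3 ≤ N)
    {R : Type} [Fintype R] [Nonempty R]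
    (f : R → Set (Con ar (Fin N)) → ℝ) (l : R → List (Set (Con ar (Fin N)) → ℝ))
    (q : R → List (List ((Set (Con ar (Fin N)) → ℝ) × ℝ)))
    (hp : ∀ r, FProg (conInputs ar (Fin N)) (l r) (q r)) (hf : ∀ r, f r ∈ l r)
    (hdec : DecidesQ rel ξ f) (hξ0 : 0 ≤ 1 / 2 + ξ)
    (hsize : ∀ r, (((l r).length + wires (q r) + 2 : ℕ) : ℝ) ≤ S)
    (hP : ∀ r, (combos (q r) : ℝ) ≤ P) :
    k * (2 * ξ) ≤ k * κ + P + k * (2 ^ b / 2 ^ m) := by
  obtain ⟨e, he, he3⟩ := exists_emb (k := k) (b := b) hN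
  have hN3 : 3 ≤ N := by omega
  obtain ⟨z0, z1, hz1, hz2⟩ := exists_plan rel
  have hne : Nonempty (Fin m → Cl (Fin b) 4) := ⟨fun _ _ => (⟨0, hb⟩, true)⟩
  refine walk_rand κ S (2 ^ b / 2 ^ m) ξ P m
    (fun F => ¬ ∃ z : Fin b → Bool, ∀ c ∈ F, OddSat z c) hd
    (fun r F => f r (instQ rel hN3 z0 z1 e F))
    (fun r => (l r).map fun f => fun F => f (instQ rel hN3 z0 z1 e F))
    (fun r => (q r).map fun w => w.map fun p => ((fun x => p.1 (instQ rel hN3 z0 z1 e x)), p.2))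
    (fun r => FProg.comap (instQ rel hN3 z0 z1 e) (instQ_inputs hN3 z0 z1 e) (hp r))
    (fun r => List.mem_map.2 ⟨f r, hf r, rfl⟩) ?_ ?_ (adv_le hdec) hξ0 (by positivity)
    (avg_sat (by norm_num) hb m) ?_ ?_
  · intro r
    rw [List.length_map, wires_map]
    exact hsize r
  · intro r
    rw [combos_map]
    exact hP r
  · intro y i F hF
    refine (hdec _).2 fun hs => hF ?_
    have h1 := odd_of_true hE hN3 z0 z1 hz2 e (upd y i F) hs i
    have h2 : (upd y i F : BF k b 4) i = F := by simp [upd]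
    rw [h2] at h1
    exact h1
  · intro y i
    refine (hdec _).1 (true_of_odd hN3 z0 z1 hz1 e he he3 _ y fun j c hc => ?_)
    unfold ctx at hc
    by_cases hj : j.1 < i.1 + 1
    · rw [if_pos hj] at hc
      exact (mem_filter.1 hc).2
    · rw [if_neg hj] at hc
      exact absurd hc (Finset.notMem_empty c)

/-- the lower bound -/
theorem lowerQ (a c ξ : ℝ) (ha0 : 0 ≤ a) (ha : a < 1) (hc0 : 0 < c) (hc : c < (1 - a) / 52)
    (hξ : 0 < ξ) :
    ∃ N₀ : ℕ, ∀ N : ℕ, N₀ ≤ N → ∀ (ι : Type) (ar : ι → ℕ) (rel : ∀ i, Set (Fin (ar i) → Bool)),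
      ¬ QEasy rel → ∀ (R : Type) [Fintype R] [Nonempty R] (f : R → Set (Con ar (Fin N)) → ℝ)
      (l : R → List (Set (Con ar (Fin N)) → ℝ))
      (q : R → List (List ((Set (Con ar (Fin N)) → ℝ) × ℝ))),
      (∀ r, FProg (conInputs ar (Fin N)) (l r) (q r)) → (∀ r, f r ∈ l r) → DecidesQ rel ξ f →
      (∀ r, (combos (q r) : ℝ) ≤ (N : ℝ) ^ a) →
      ∃ r, (2 : ℝ) ^ ((N : ℝ) ^ c) < (l r).length + wires (q r) := by
  set ρ : ℝ := 52 * c / (1 - a) with hρ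
  have h1a : 0 < 1 - a := by linarith
  have hρ0 : 0 < ρ := by positivity
  have hρ1 : ρ < 1 := by
    rw [hρ, div_lt_one h1a]
    linarith
  set θ : ℝ := (1 + ρ) / 2 with hθ
  have hθ1 : θ < 1 := by rw [hθ]; linarith
  have hθ0 : 0 < θ := by rw [hθ]; linarith
  have hθρ : ρ < θ * θ := by
    have : θ * θ - ρ = ((1 - ρ) / 2) * ((1 - ρ) / 2) := by rw [hθ]; ring
    have h2 : 0 < ((1 - ρ) / 2) * ((1 - ρ) / 2) := by
      have : 0 < (1 - ρ) / 2 := by linarith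
      positivity
    linarith
  set ε : ℝ := (1 - a) / 4 * θ with hε
  set ν : ℝ := θ / 13 with hν
  set δ : ℝ := (13 * ν + 1) / 2 with hδ
  have hε0 : 0 < ε := by positivity
  have hν0 : 0 < ν := by positivity
  have hν13 : ν < 1 / 13 := by rw [hν]; linarith
  have hδ1 : δ < 1 := by rw [hδ]; linarith
  have hδ2 : (3 * ((4 : ℕ) : ℝ) + 1) * ν < δ := by rw [hδ]; push_cast; linarith
  have h4 : a < 1 - 4 * ε := by
    have : 4 * ε = (1 - a) * θ := by rw [hε]; ring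
    rw [this]
    nlinarith
  have hcε : c < ε * ν := by
    have e1 : ε * ν = (1 - a) / 52 * (θ * θ) := by rw [hε, hν]; ring
    have e2 : c = (1 - a) / 52 * ρ := by rw [hρ]; field_simp
    rw [e1, e2]
    exact mul_lt_mul_of_pos_left hθρ (by positivity)
  obtain ⟨N₁, hN₁⟩ := dich_ind 4 (by norm_num) δ ν hν0 hδ2
  obtain ⟨N₀, hN₀⟩ := choose_params a c ξ ε ν δ N₁ ha0 hc0 hξ hε0 hν0 (by linarith) hδ1 h4 hcε
  refine ⟨N₀ + 1, fun N hN ι ar rel hE R _ _ f l q hp hf hdec hcomb => ?_⟩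
  obtain ⟨b, k, g1, g2, g3, g4, g5, g6, g7, g8, g9⟩ := hN₀ N (by omega)
  by_contra hcon
  push Not at hcon
  have hξ1 := adv_le hdec
  have hN1 : (1 : ℝ) ≤ N := by
    have : 1 ≤ N := by omega
    exact_mod_cast this
  have hNa : (1 : ℝ) ≤ (N : ℝ) ^ a := Real.one_le_rpow hN1 ha0
  have hk4 : (4 : ℝ) ≤ k := by
    by_contra h
    push Not at h
    have : ξ / 2 * k < 1 := by nlinarith
    linarith
  have hk4' : 4 ≤ k := by exact_mod_cast hk4
  obtain ⟨k', rfl⟩ : ∃ k', k = k' + 1 := ⟨k - 1, by omega⟩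
  have hN3 : k' * (b + 4096 * b ^ 4) + 3 ≤ N := by
    have h1 : (k' + 1) * (b + 4096 * b ^ 4) = k' * (b + 4096 * b ^ 4) + (b + 4096 * b ^ 4) := by
      ring
    have h2 : 1 ≤ b ^ 4 := Nat.one_le_pow _ _ g2
    omega
  have hsize : ∀ r, (((l r).length + wires (q r) + 2 : ℕ) : ℝ) ≤ 2 ^ ((N : ℝ) ^ c) + 2 := by
    intro r
    have := hcon r
    push_cast
    linarith
  have hd : ∀ l : List (Finset (Cl (Fin b) 4) → ℝ), Prog (orCnf b 4) l →
      (l.length : ℝ) ≤ 2 ^ ((N : ℝ) ^ c) + 2 → ∀ f ∈ l,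
      avg (fun ω : Fin (2 * b) → Cl (Fin b) 4 => ind (1 ≤ f (univ.image ω))) ≤
        (b : ℝ) ^ (-ν) + avg fun z : Fin b → Bool => ind (1 ≤ f (oddFormula z)) := by
    intro l hl hlen f hf
    obtain ⟨l', h1, h2, h3⟩ := expand hl
    refine hN₁ b g1 (2 * b) g5 l' h1 ?_ f (h2 hf)
    have e1 : Fintype.card (Cl (Fin b) 4) = 16 * b ^ 4 := by rw [card_cl]; ring
    rw [e1] at h3
    have h4 : (l'.length : ℝ) ≤ l.length * (2 * (16 * b ^ 4) + 1) := by exact_mod_cast h3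
    have hb1 : (1 : ℝ) ≤ (b : ℝ) ^ 4 := one_le_pow₀ (by exact_mod_cast g2)
    refine h4.trans (le_trans ?_ g6)
    apply mul_le_mul hlen (by linarith) (by positivity) (by positivity)
  have hw := walkQ (k := k') hE g2 ((b : ℝ) ^ (-ν)) (2 ^ ((N : ℝ) ^ c) + 2) ξ ((N : ℝ) ^ a)
    (2 * b) N hd hN3 f l q hp hf hdec (by linarith) hsize hcomb
  push_cast at hk4 g8
  have hk3 : (3 : ℝ) ≤ k' := by linarith
  have j1 : (k' : ℝ) * (b : ℝ) ^ (-ν) ≤ k' * (ξ / 2) := mul_le_mul_of_nonneg_left g7 (by linarith)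
  have j2 : (k' : ℝ) * ((2 : ℝ) ^ b / 2 ^ (2 * b)) ≤ k' * (ξ / 2) :=
    mul_le_mul_of_nonneg_left g9 (by linarith)
  nlinarith

end H630QS
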