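import Pool.Agent.H630SD.Model

/-!
# Quantified Boolean constraint satisfaction and circuits: the definitions
-/

open scoped Classical
open Finset

namespace H630QS

open H630VC H630XR H630SD

/-- The prenex sentence over the variables `0, 1, ..., n - 1`, quantified in this order, universally
if they belong to `U` and existentially otherwise, whose matrix is the conjunction of the constraints
in `F`, is true.  `X y v` is the value of the variable `v` if the universal variables have the values
given by `y`; for an existential `v` this is a Skolem function: it depends only on the values of the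
universal variables before `v`. -/
def QTrue {ι : Type} {ar : ι → ℕ} (rel : ∀ i, Set (Fin (ar i) → Bool)) {n : ℕ} (U : Set (Fin n))
    (F : Set (Con ar (Fin n))) : Prop :=
  ∃ X : (Fin n → Bool) → Fin n → Bool,
    (∀ y, ∀ v ∈ U, X y v = y v) ∧
    (∀ y y' v, (∀ w ∈ U, w ≤ v → y w = y' w) → X y v = X y' v) ∧
    ∀ y, ∀ c ∈ F, (fun j => X y (c.2 j)) ∈ rel c.1

/-- the language is closed under AND, OR or majority -/
def QEasy {ι : Type} {ar : ι → ℕ} (rel : ∀ i, Set (Fin (ar i) → Bool)) : Prop :=
  Pol rel (fun x : Fin 2 → Bool => x 0 && x 1) ∨ Pol rel (fun x : Fin 2 → Bool => x 0 || x 1) ∨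
  Pol rel (fun x : Fin 3 → Bool => (x 0 && x 1) || (x 0 && x 2) || (x 1 && x 2))

/-- the inputs of Boolean circuits for quantified instances `(U, F)`: for each variable the bit that
tells whether it is universal, for each constraint the bit that tells whether it is present, and the
constants zero and one -/
def qBits {ι : Type} (ar : ι → ℕ) (n : ℕ) : Set ((Set (Fin n) × Set (Con ar (Fin n))) → ℝ) :=
  {f | (∃ v : Fin n, f = fun I => if v ∈ I.1 then 1 else 0) ∨
    (∃ c : Con ar (Fin n), f = fun I => if c ∈ I.2 then 1 else 0) ∨
    f = (fun _ => 0) ∨ f = fun _ => 1}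

/-- the prefix with one universal quantifier, in the second position -/
def second (n : ℕ) : Set (Fin n) := {v | v.1 = 1}

/-- the family `f r`, `r ∈ R`, of functions decides the truth of the sentences over `n` variables
with the prefix `∃ ∀ ∃ ⋯ ∃` with advantage `ξ`: on every instance at least a fraction `1/2 + ξ` of
the values is right, that is less than one if the sentence is true and at least one otherwise -/
def DecidesQ {ι R : Type} [Fintype R] {ar : ι → ℕ} (rel : ∀ i, Set (Fin (ar i) → Bool)) {n : ℕ}
    (ξ : ℝ) (f : R → Set (Con ar (Fin n)) → ℝ) : Prop :=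
  ∀ F : Set (Con ar (Fin n)), (QTrue rel (second n) F →
      (1 / 2 + ξ) * Fintype.card R ≤ (univ.filter fun r => f r F < 1).card) ∧
    (¬ QTrue rel (second n) F →
      (1 / 2 + ξ) * Fintype.card R ≤ (univ.filter fun r => 1 ≤ f r F).card)

/-! ### the language with the constants, and the games with at most two free universal variables -/

/-- the arities of the language with two more relations, `{0}` and `{1}` -/
def arP {ι : Type} (ar : ι → ℕ) : ι ⊕ Bool → ℕ
  | .inl i => ar i
  | .inr _ => 1

/-- the language with the two relations `{0}` and `{1}` added -/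
def relP {ι : Type} {ar : ι → ℕ} (rel : ∀ i, Set (Fin (ar i) → Bool)) :
    ∀ i, Set (Fin (arP ar i) → Bool)
  | .inl i => rel i
  | .inr b => {t | ∀ j, t j = b}

/-- the copy of the variable `v` for the choice `(s, t)`: it does not know choices made later -/
def cp {n : ℕ} (p q : ℕ) (s t : Bool) (v : Fin n) : Fin n × Bool × Bool :=
  (v, s && decide (p ≤ v.1), t && decide (q ≤ v.1))

/-- the ordinary instance that says that the sentence `(U, F)` is true if all universal variables
except `p` and `q` have the value `d` -/
def game {ι : Type} {ar : ι → ℕ} (d : Bool) (p q : ℕ) {n : ℕ} (U : Set (Fin n))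
    (F : Set (Con ar (Fin n))) : Set (Con (arP ar) (Fin n × Bool × Bool)) :=
  {C | (∃ s t, ∃ c ∈ F, C = ⟨.inl c.1, fun j => cp p q s t (c.2 j)⟩) ∨
    ∃ s t, ∃ v ∈ U, C = ⟨.inr (xor d ((s && decide (v.1 = p)) || (t && decide (v.1 = q)))),
      fun _ => cp p q s t v⟩}

end H630QS
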