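import Pool.Agent.H630QS.Model
import Pool.Agent.H630XR.P11

/-!
# Quantified instances reduce to games with two free universal variables
-/

open scoped Classical
open Finset

namespace H630QS

open H630VC H630XR H630SD

variable {ι : Type} {ar : ι → ℕ} {rel : ∀ i, Set (Fin (ar i) → Bool)}

theorem game_of_true {n : ℕ} (U : Set (Fin n)) (F : Set (Con ar (Fin n))) (h : QTrue rel U F)
    (d : Bool) (p q : ℕ) : Sat (relP rel) (game d p q U F) := by
  obtain ⟨X, h1, h2, h3⟩ := h
  let Y : Bool → Bool → Fin n → Bool := fun a b w =>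
    xor d ((a && decide (w.1 = p)) || (b && decide (w.1 = q)))
  let x : Fin n × Bool × Bool → Bool := fun z => X (Y z.2.1 z.2.2) z.1
  have hx : ∀ s t v, x (cp p q s t v) = X (Y s t) v := by
    intro s t v
    show X (Y (s && decide (p ≤ v.1)) (t && decide (q ≤ v.1))) v = X (Y s t) v
    apply h2
    intro w _ hw
    have hw' : w.1 ≤ v.1 := hw
    show xor d (((s && decide (p ≤ v.1)) && decide (w.1 = p)) ||
      ((t && decide (q ≤ v.1)) && decide (w.1 = q))) =
      xor d ((s && decide (w.1 = p)) || (t && decide (w.1 = q)))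
    have e1 : ((s && decide (p ≤ v.1)) && decide (w.1 = p)) = (s && decide (w.1 = p)) := by
      by_cases hp : w.1 = p
      · have : p ≤ v.1 := by omega
        simp [hp, this]
      · simp [hp]
    have e2 : ((t && decide (q ≤ v.1)) && decide (w.1 = q)) = (t && decide (w.1 = q)) := by
      by_cases hq : w.1 = q
      · have : q ≤ v.1 := by omega
        simp [hq, this]
      · simp [hq]
    rw [e1, e2]
  refine ⟨x, ?_⟩
  rintro C (⟨s, t, c, hc, rfl⟩ | ⟨s, t, v, hv, rfl⟩)
  · show (fun j => x (cp p q s t (c.2 j))) ∈ rel c.1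
    simp only [hx]
    exact h3 _ c hc
  · intro _
    show x (cp p q s t v) = _
    rw [hx, h1 _ v hv]

/-- the sentence is true if the universal variables outside `T` have the value `d` -/
def qt1_W (rel : ∀ i, Set (Fin (ar i) → Bool)) {n : ℕ} (U : Set (Fin n))
    (F : Set (Con ar (Fin n))) (d : Bool) (T : Finset (Fin n)) : Prop :=
  ∃ X : (Fin n → Bool) → Fin n → Bool,
    (∀ y, ∀ v ∈ U, X y v = if v ∈ T then y v else d) ∧
    (∀ y y' v, (∀ w ∈ T, w ≤ v → y w = y' w) → X y v = X y' v) ∧
    ∀ y, ∀ c ∈ F, (fun j => X y (c.2 j)) ∈ rel c.1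

theorem qt1_pair {n : ℕ} (U : Set (Fin n)) (F : Set (Con ar (Fin n))) (d : Bool) (p q : ℕ)
    (hs : Sat (relP rel) (game d p q U F)) :
    qt1_W rel U F d (univ.filter fun v : Fin n => v.1 = p ∨ v.1 = q) := by
  obtain ⟨x, hx⟩ := hs
  have ha : ∀ s t, ∀ c ∈ F, (fun j => x (cp p q s t (c.2 j))) ∈ rel c.1 :=
    fun s t c hc => hx _ (Or.inl ⟨s, t, c, hc, rfl⟩)
  have hb : ∀ s t, ∀ v ∈ U, x (cp p q s t v) =
      xor d ((s && decide (v.1 = p)) || (t && decide (v.1 = q))) := by
    intro s t v hv
    have h := hx _ (Or.inr ⟨s, t, v, hv, rfl⟩)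
    exact h (0 : Fin 1)
  let sg : ℕ → (Fin n → Bool) → Bool := fun p y => decide (∃ w : Fin n, w.1 = p ∧ y w ≠ d)
  have hsg : ∀ (v : Fin n) (y : Fin n → Bool), sg v.1 y = xor d (y v) := by
    intro v y
    have h1 : (∃ w : Fin n, w.1 = v.1 ∧ y w ≠ d) ↔ y v ≠ d := by
      constructor
      · rintro ⟨w, hw, hy⟩
        rwa [Fin.ext hw] at hy
      · intro hy
        exact ⟨v, rfl, hy⟩
    show decide (∃ w : Fin n, w.1 = v.1 ∧ y w ≠ d) = xor d (y v)
    rw [Bool.eq_iff_iff, decide_eq_true_iff, h1]
    generalize y v = b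
    cases d <;> cases b <;> simp
  have hsg' : ∀ (v : Fin n) (p : ℕ) (y y' : Fin n → Bool), p ≤ v.1 →
      (∀ w : Fin n, w.1 = p → w ≤ v → y w = y' w) → sg p y = sg p y' := by
    intro v p y y' hp hy
    have hpn : p < n := lt_of_le_of_lt hp v.2
    have h1 := hsg ⟨p, hpn⟩ y
    have h2 := hsg ⟨p, hpn⟩ y'
    have h3 : y ⟨p, hpn⟩ = y' ⟨p, hpn⟩ := hy ⟨p, hpn⟩ rfl hp
    show sg (⟨p, hpn⟩ : Fin n).1 y = sg (⟨p, hpn⟩ : Fin n).1 y'
    rw [h1, h2, h3]
  refine ⟨fun y v => x (cp p q (sg p y) (sg q y) v), ?_, ?_, ?_⟩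
  · intro y v hv
    show x (cp p q (sg p y) (sg q y) v) = _
    rw [hb _ _ v hv]
    have hdd : ∀ b : Bool, xor d (xor d b) = b := by
      intro b
      cases d <;> cases b <;> rfl
    by_cases hp : v.1 = p
    · have h1 : sg p y = xor d (y v) := by rw [← hp]; exact hsg v y
      by_cases hq : v.1 = q
      · have h2 : sg q y = xor d (y v) := by rw [← hq]; exact hsg v y
        rw [if_pos (by simp [hp]), h1, h2, decide_eq_true hp, decide_eq_true hq, Bool.and_true,
          Bool.or_self, hdd]
      · rw [if_pos (by simp [hp]), h1, decide_eq_true hp, decide_eq_false hq, Bool.and_true,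
          Bool.and_false, Bool.or_false, hdd]
    · by_cases hq : v.1 = q
      · have h2 : sg q y = xor d (y v) := by rw [← hq]; exact hsg v y
        rw [if_pos (by simp [hq]), h2, decide_eq_false hp, decide_eq_true hq, Bool.and_true,
          Bool.and_false, Bool.false_or, hdd]
      · rw [if_neg (by simp [hp, hq]), decide_eq_false hp, decide_eq_false hq, Bool.and_false,
          Bool.and_false, Bool.or_false, Bool.xor_false]
  · intro y y' v hy
    show x (v, sg p y && decide (p ≤ v.1), sg q y && decide (q ≤ v.1)) =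
      x (v, sg p y' && decide (p ≤ v.1), sg q y' && decide (q ≤ v.1))
    have e1 : (sg p y && decide (p ≤ v.1)) = (sg p y' && decide (p ≤ v.1)) := by
      by_cases hp : p ≤ v.1
      · rw [hsg' v p y y' hp fun w hw hwv => hy w (by simp [hw]) hwv]
      · rw [decide_eq_false hp, Bool.and_false, Bool.and_false]
    have e2 : (sg q y && decide (q ≤ v.1)) = (sg q y' && decide (q ≤ v.1)) := by
      by_cases hq : q ≤ v.1
      · rw [hsg' v q y y' hq fun w hw hwv => hy w (by simp [hw]) hwv]
      · rw [decide_eq_false hq, Bool.and_false, Bool.and_false]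
    rw [e1, e2]
  · intro y c hc
    exact ha _ _ c hc

theorem qt1_small {n : ℕ} (U : Set (Fin n)) (F : Set (Con ar (Fin n))) (d : Bool)
    (hg : ∀ p ≤ n, ∀ q ≤ n, Sat (relP rel) (game d p q U F)) (T : Finset (Fin n))
    (hT : T.card ≤ 2) : qt1_W rel U F d T := by
  rcases Nat.lt_or_ge T.card 1 with h0 | h0
  · have hT0 : T = ∅ := Finset.card_eq_zero.1 (by omega)
    have h1 := qt1_pair U F d n n (hg n le_rfl n le_rfl)
    have h2 : (univ.filter fun v : Fin n => v.1 = n ∨ v.1 = n) = T := by
      rw [hT0]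
      apply Finset.filter_false_of_mem
      intro v _ hv
      have := v.2
      omega
    rwa [h2] at h1
  · rcases Nat.lt_or_ge T.card 2 with h1 | h1
    · obtain ⟨a, ha⟩ := Finset.card_eq_one.1 (by omega : T.card = 1)
      have h2 := qt1_pair U F d a.1 a.1 (hg _ a.2.le _ a.2.le)
      have h3 : (univ.filter fun v : Fin n => v.1 = a.1 ∨ v.1 = a.1) = T := by
        rw [ha]
        ext v
        simp [Fin.ext_iff]
      rwa [h3] at h2
    · obtain ⟨a, b, _, hab⟩ := Finset.card_eq_two.1 (by omega : T.card = 2)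
      have h2 := qt1_pair U F d a.1 b.1 (hg _ a.2.le _ b.2.le)
      have h3 : (univ.filter fun v : Fin n => v.1 = a.1 ∨ v.1 = b.1) = T := by
        rw [hab]
        ext v
        simp [Fin.ext_iff]
      rwa [h3] at h2

theorem qt1_and {n : ℕ} (U : Set (Fin n)) (F : Set (Con ar (Fin n))) (d : Bool)
    (op : Bool → Bool → Bool) (hop1 : ∀ b, op b d = b) (hop2 : ∀ b, op d b = b)
    (hop3 : ∀ b, op b b = b) (hpol : Pol rel (fun x : Fin 2 → Bool => op (x 0) (x 1)))
    (h0 : qt1_W rel U F d ∅) (h1 : ∀ a, qt1_W rel U F d {a}) (T : Finset (Fin n)) :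
    qt1_W rel U F d T := by
  induction T using Finset.induction_on with
  | empty => exact h0
  | insert a T _ ih =>
    obtain ⟨X1, hX1, hX2, hX3⟩ := ih
    obtain ⟨Y1, hY1, hY2, hY3⟩ := h1 a
    refine ⟨fun y v => op (X1 y v) (Y1 y v), ?_, ?_, ?_⟩
    · intro y v hv
      show op (X1 y v) (Y1 y v) = _
      rw [hX1 y v hv, hY1 y v hv]
      by_cases h2 : v ∈ T
      · by_cases h3 : v = a
        · rw [if_pos h2, if_pos (by simp [h3]), if_pos (by simp [h3]), hop3]
        · rw [if_pos h2, if_neg (by simp [h3]), if_pos (by simp [h2]), hop1]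
      · by_cases h3 : v = a
        · rw [if_neg h2, if_pos (by simp [h3]), if_pos (by simp [h3]), hop2]
        · rw [if_neg h2, if_neg (by simp [h3]), if_neg (by simp [h2, h3]), hop1]
    · intro y y' v hy
      show op (X1 y v) (Y1 y v) = op (X1 y' v) (Y1 y' v)
      rw [hX2 y y' v fun w hw hwv => hy w (Finset.mem_insert_of_mem hw) hwv,
        hY2 y y' v fun w hw hwv => hy w (by
          rw [Finset.mem_singleton] at hw
          rw [hw]
          exact Finset.mem_insert_self _ _) hwv]
    · intro y c hc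
      have h4 := hpol c.1 (fun s => if s = 0 then (fun j => X1 y (c.2 j)) else
        fun j => Y1 y (c.2 j)) (by
          intro s
          by_cases hs : s = 0
          · simp only [hs, if_true]
            exact hX3 y c hc
          · simp only [hs, if_false]
            exact hY3 y c hc)
      exact h4

theorem qt1_maj {n : ℕ} (U : Set (Fin n)) (F : Set (Con ar (Fin n))) (d : Bool)
    (hpol : Pol rel (fun x : Fin 3 → Bool => (x 0 && x 1) || (x 0 && x 2) || (x 1 && x 2)))
    (hsm : ∀ T : Finset (Fin n), T.card ≤ 2 → qt1_W rel U F d T) :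
    ∀ (k : ℕ) (T : Finset (Fin n)), T.card = k → qt1_W rel U F d T := by
  intro k
  induction k with
  | zero => exact fun T hT => hsm T (by omega)
  | succ k ih =>
    intro T hT
    rcases Nat.lt_or_ge k 2 with hk | hk
    · exact hsm T (by omega)
    · obtain ⟨a, ha, b, hb, c, hc, hab, hac, hbc⟩ := Finset.two_lt_card.1 (by omega : 2 < T.card)
      obtain ⟨X, hX1, hX2, hX3⟩ := ih (T.erase a) (by rw [Finset.card_erase_of_mem ha]; omega)
      obtain ⟨Y, hY1, hY2, hY3⟩ := ih (T.erase b) (by rw [Finset.card_erase_of_mem hb]; omega)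
      obtain ⟨Z, hZ1, hZ2, hZ3⟩ := ih (T.erase c) (by rw [Finset.card_erase_of_mem hc]; omega)
      refine ⟨fun y v => (X y v && Y y v) || (X y v && Z y v) || (Y y v && Z y v), ?_, ?_, ?_⟩
      · intro y v hv
        show ((X y v && Y y v) || (X y v && Z y v) || (Y y v && Z y v)) = _
        rw [hX1 y v hv, hY1 y v hv, hZ1 y v hv]
        by_cases h2 : v ∈ T
        · rw [if_pos h2]
          by_cases h3 : v = a
          · have h4 : v ∈ T.erase b := Finset.mem_erase.2 ⟨by rw [h3]; exact hab, h2⟩
            have h5 : v ∈ T.erase c := Finset.mem_erase.2 ⟨by rw [h3]; exact hac, h2⟩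
            rw [if_pos h4, if_pos h5]
            cases y v <;> cases (if v ∈ T.erase a then _ else d) <;> rfl
          · have h6 : v ∈ T.erase a := Finset.mem_erase.2 ⟨h3, h2⟩
            by_cases h7 : v = b
            · have h5 : v ∈ T.erase c := Finset.mem_erase.2 ⟨by rw [h7]; exact hbc, h2⟩
              rw [if_pos h6, if_pos h5]
              cases y v <;> cases (if v ∈ T.erase b then _ else d) <;> rfl
            · have h4 : v ∈ T.erase b := Finset.mem_erase.2 ⟨h7, h2⟩
              rw [if_pos h6, if_pos h4]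
              cases y v <;> cases (if v ∈ T.erase c then _ else d) <;> rfl
        · have h4 : ∀ e, v ∉ T.erase e := fun e he => h2 (Finset.mem_of_mem_erase he)
          rw [if_neg h2, if_neg (h4 a), if_neg (h4 b), if_neg (h4 c)]
          cases d <;> rfl
      · intro y y' v hy
        show ((X y v && Y y v) || (X y v && Z y v) || (Y y v && Z y v)) =
          ((X y' v && Y y' v) || (X y' v && Z y' v) || (Y y' v && Z y' v))
        rw [hX2 y y' v fun w hw hwv => hy w (Finset.mem_of_mem_erase hw) hwv,
          hY2 y y' v fun w hw hwv => hy w (Finset.mem_of_mem_erase hw) hwv,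
          hZ2 y y' v fun w hw hwv => hy w (Finset.mem_of_mem_erase hw) hwv]
      · intro y e he
        have h4 := hpol e.1 (fun s => if s = 0 then (fun j => X y (e.2 j)) else
          if s = 1 then (fun j => Y y (e.2 j)) else fun j => Z y (e.2 j)) (by
            intro s
            by_cases hs : s = 0
            · simp only [hs, if_true]
              exact hX3 y e he
            · by_cases hs1 : s = 1
              · simp only [hs1, if_true]
                exact hY3 y e he
              · simp only [hs, hs1, if_false]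
                exact hZ3 y e he)
        exact h4

theorem true_of_game {n : ℕ} (U : Set (Fin n)) (F : Set (Con ar (Fin n))) (d : Bool)
    (h : (Pol rel (fun x : Fin 2 → Bool => x 0 && x 1) ∧ d = true) ∨
      (Pol rel (fun x : Fin 2 → Bool => x 0 || x 1) ∧ d = false) ∨
      (Pol rel (fun x : Fin 3 → Bool => (x 0 && x 1) || (x 0 && x 2) || (x 1 && x 2)) ∧ d = false))
    (hg : ∀ p ≤ n, ∀ q ≤ n, Sat (relP rel) (game d p q U F)) : QTrue rel U F := by
  have hsm := qt1_small U F d hg
  have hW : qt1_W rel U F d U.toFinset := by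
    rcases h with ⟨hp, hd⟩ | ⟨hp, hd⟩ | ⟨hp, _⟩
    · exact qt1_and U F d (fun a b => a && b) (by subst hd; intro b; cases b <;> rfl)
        (by subst hd; intro b; cases b <;> rfl) (by intro b; cases b <;> rfl) hp
        (hsm ∅ (by simp)) (fun a => hsm {a} (by simp)) _
    · exact qt1_and U F d (fun a b => a || b) (by subst hd; intro b; cases b <;> rfl)
        (by subst hd; intro b; cases b <;> rfl) (by intro b; cases b <;> rfl) hp
        (hsm ∅ (by simp)) (fun a => hsm {a} (by simp)) _
    · exact qt1_maj U F d hp hsm _ _ rfl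
  obtain ⟨X, h1, h2, h3⟩ := hW
  refine ⟨X, ?_, ?_, h3⟩
  · intro y v hv
    rw [h1 y v hv, if_pos (Set.mem_toFinset.2 hv)]
  · intro y y' v hy
    exact h2 y y' v fun w hw hwv => hy w (Set.mem_toFinset.1 hw) hwv

end H630QS
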