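import Pool.Agent.H630QS.Model
import Pool.Agent.H630XR.P11

/-!
# Substitution of disjunctions into a monotone circuit (helper368)
-/

open scoped Classical
open Finset

namespace H630QS

open H630VC H630XR H630SD

theorem qt2_and {I : Type} {inp A : Set (I → ℝ)} {f g : I → ℝ} (hf : f ∈ A) (hg : g ∈ A) :
    p11_R inp A 1 {fun x => min (f x) (g x)} := by
  intro l hl hA
  refine ⟨(fun x => min (f x) (g x)) :: l, MProg.and hl (hA _ hf) (hA _ hg),
    fun h hh => List.mem_cons_of_mem _ hh, ?_, by simp⟩
  rintro h rfl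
  exact List.mem_cons_self

theorem qt2_or {I : Type} {inp A : Set (I → ℝ)} {f g : I → ℝ} (hf : f ∈ A) (hg : g ∈ A) :
    p11_R inp A 1 {fun x => max (f x) (g x)} := by
  intro l hl hA
  refine ⟨(fun x => max (f x) (g x)) :: l, MProg.or hl (hA _ hf) (hA _ hg),
    fun h hh => List.mem_cons_of_mem _ hh, ?_, by simp⟩
  rintro h rfl
  exact List.mem_cons_self

theorem transfer {I K B : Type} [Fintype B] (inp : Set (I → ℝ)) (b : B → I → Prop)
    (h0 : (fun _ => (0 : ℝ)) ∈ inp) (h1 : (fun _ => (1 : ℝ)) ∈ inp)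
    (hb : ∀ β, p11_ind (b β) ∈ inp) (G : I → Set K)
    (hG : ∀ C : K, ∃ A : Finset B, ∀ x, C ∈ G x ↔ ∃ β ∈ A, b β x)
    (l : List (Set K → ℝ))
    (hl : MProg {f | (∃ C : K, f = fun F => if C ∈ F then 1 else 0) ∨ f = (fun _ => 0) ∨
      f = fun _ => 1} l) :
    p11_R inp ∅ (l.length * (2 * Fintype.card B + 1)) {f | ∃ g ∈ l, f = fun x => g (G x)} := by
  induction hl with
  | nil =>
    intro l hl hA
    refine ⟨l, hl, fun f hf => hf, ?_, by omega⟩
    rintro f ⟨g, hg, -⟩
    exact absurd hg List.not_mem_nil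
  | @input l f _ hf ih =>
    have key : p11_R inp ∅ (2 * Fintype.card B + 1) {fun x => f (G x)} := by
      rcases hf with ⟨C, rfl⟩ | rfl | rfl
      · obtain ⟨A, hA⟩ := hG C
        have e : (fun x => (fun F : Set K => if C ∈ F then (1 : ℝ) else 0) (G x)) =
            p11_ind (fun x => ∃ β ∈ A, b β x) := by
          funext x
          unfold p11_ind
          by_cases h : C ∈ G x
          · have h' := (hA x).1 h
            rw [if_pos h']
            exact if_pos h
          · have h' : ¬ ∃ β ∈ A, b β x := fun h' => h ((hA x).2 h')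
            rw [if_neg h']
            exact if_neg h
        rw [e]
        have s1 := p11_family (inp := inp) (A := ∅) (n := 1) A (fun β => p11_ind (b β))
          (fun β _ => p11_input (hb β))
        have s2 : p11_R inp {f | ∃ β ∈ A, f = p11_ind (b β)} (A.card + 1)
            {p11_ind (fun x => ∃ β ∈ A, b β x)} :=
          p11_bigor h0 A b (fun β hβ => ⟨β, hβ, rfl⟩)
        refine p11_mono (p11_trans s1 s2) (Set.Subset.refl _) (Set.Subset.refl _) ?_
        have := Finset.card_le_univ A
        omega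
      · exact p11_mono (p11_input h0) (Set.Subset.refl _) (Set.Subset.refl _) (by omega)
      · exact p11_mono (p11_input h1) (Set.Subset.refl _) (Set.Subset.refl _) (by omega)
    refine p11_mono (p11_union ih key) (Set.Subset.refl _) ?_ ?_
    · rintro h ⟨g, hg, rfl⟩
      rcases List.mem_cons.1 hg with rfl | hg
      · exact Or.inr rfl
      · exact Or.inl ⟨g, hg, rfl⟩
    · rw [List.length_cons, Nat.add_one_mul l.length]
  | @and l f g _ hf hg ih =>
    have key : p11_R inp {h | ∃ g ∈ l, h = fun x => g (G x)} 1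
        {fun x => min (f (G x)) (g (G x))} :=
      qt2_and (f := fun x => f (G x)) (g := fun x => g (G x)) ⟨f, hf, rfl⟩ ⟨g, hg, rfl⟩
    refine p11_mono (p11_trans ih (p11_keep key)) (Set.Subset.refl _) ?_ ?_
    · rintro h ⟨g', hg', rfl⟩
      rcases List.mem_cons.1 hg' with rfl | hg'
      · exact Or.inr rfl
      · exact Or.inl ⟨g', hg', rfl⟩
    · rw [List.length_cons, Nat.add_one_mul l.length]
      omega
  | @or l f g _ hf hg ih =>
    have key : p11_R inp {h | ∃ g ∈ l, h = fun x => g (G x)} 1
        {fun x => max (f (G x)) (g (G x))} :=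
      qt2_or (f := fun x => f (G x)) (g := fun x => g (G x)) ⟨f, hf, rfl⟩ ⟨g, hg, rfl⟩
    refine p11_mono (p11_trans ih (p11_keep key)) (Set.Subset.refl _) ?_ ?_
    · rintro h ⟨g', hg', rfl⟩
      rcases List.mem_cons.1 hg' with rfl | hg'
      · exact Or.inr rfl
      · exact Or.inl ⟨g', hg', rfl⟩
    · rw [List.length_cons, Nat.add_one_mul l.length]
      omega

end H630QS
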