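import Pool.Agent.H630QS.Model
import Pool.Agent.H630XR.P11
import Pool.Agent.H630SD.T3

/-! # T3: circuits for quantified instances from circuits for ordinary instances (helper439) -/

open scoped Classical
open Finset

namespace H630QS

open H630VC H630XR H630SD

variable {ι : Type} {ar : ι → ℕ} {rel : ∀ i, Set (Fin (ar i) → Bool)}

theorem qt3_transfer {I K B : Type} [Fintype B] (inp : Set (I → ℝ)) (b : B → I → Prop)
    (h0 : (fun _ => (0 : ℝ)) ∈ inp) (h1 : (fun _ => (1 : ℝ)) ∈ inp)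
    (hb : ∀ β, p11_ind (b β) ∈ inp) (G : I → Set K)
    (hG : ∀ C : K, ∃ A : Finset B, ∀ x, C ∈ G x ↔ ∃ β ∈ A, b β x)
    (l : List (Set K → ℝ))
    (hl : MProg {f | (∃ C : K, f = fun F => if C ∈ F then 1 else 0) ∨ f = (fun _ => 0) ∨
      f = fun _ => 1} l) :
    p11_R inp ∅ (l.length * (2 * Fintype.card B + 1)) {f | ∃ g ∈ l, f = fun x => g (G x)} := by
  induction hl with
  | nil =>
    intro L hL hA
    refine ⟨L, hL, fun f hf => hf, ?_, by omega⟩
    rintro f ⟨g, hg, -⟩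
    exact absurd hg List.not_mem_nil
  | @input l f hl hf ih =>
    have key : p11_R inp ∅ (2 * Fintype.card B + 1) {fun x => f (G x)} := by
      rcases hf with ⟨C, rfl⟩ | rfl | rfl
      · obtain ⟨A, hA⟩ := hG C
        have s1 : p11_R inp ∅ (A.card * 1) {f | ∃ β ∈ A, f = p11_ind (b β)} :=
          p11_family A (fun β => p11_ind (b β)) (fun β _ => p11_input (hb β))
        have s2 := p11_bigor (inp := inp) (A := {f | ∃ β ∈ A, f = p11_ind (b β)}) h0 A b
          (fun β hβ => ⟨β, hβ, rfl⟩)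
        have e : (fun x => (if C ∈ G x then (1 : ℝ) else 0)) =
            p11_ind (fun x => ∃ β ∈ A, b β x) := p11_ind_congr hA
        have hc : A.card ≤ Fintype.card B := Finset.card_le_univ A
        refine p11_mono (p11_trans s1 s2) (Set.Subset.refl _) ?_ (by omega)
        intro f hf
        rw [← e]
        exact hf
      · exact p11_mono (p11_input h0) (Set.Subset.refl _) (Set.Subset.refl _) (by omega)
      · exact p11_mono (p11_input h1) (Set.Subset.refl _) (Set.Subset.refl _) (by omega)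
    refine p11_mono (p11_union ih key) (Set.Subset.refl _) ?_ ?_
    · rintro f' ⟨g, hg, rfl⟩
      rcases List.mem_cons.1 hg with rfl | hg
      · exact Or.inr rfl
      · exact Or.inl ⟨g, hg, rfl⟩
    · rw [List.length_cons]
      exact le_of_eq (by ring)
  | @and l f g hl hf hg ih =>
    intro L hL hA
    obtain ⟨L', a1, a2, a3, a4⟩ := ih L hL hA
    refine ⟨(fun x => min (f (G x)) (g (G x))) :: L',
      MProg.and a1 (a3 _ ⟨f, hf, rfl⟩) (a3 _ ⟨g, hg, rfl⟩),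
      fun h hh => List.mem_cons_of_mem _ (a2 h hh), ?_, ?_⟩
    · rintro f' ⟨g', hg', rfl⟩
      rcases List.mem_cons.1 hg' with rfl | hg'
      · exact List.mem_cons_self
      · exact List.mem_cons_of_mem _ (a3 _ ⟨g', hg', rfl⟩)
    · rw [List.length_cons, List.length_cons]
      have : (l.length + 1) * (2 * Fintype.card B + 1) =
        l.length * (2 * Fintype.card B + 1) + (2 * Fintype.card B + 1) := by ring
      omega
  | @or l f g hl hf hg ih =>
    intro L hL hA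
    obtain ⟨L', a1, a2, a3, a4⟩ := ih L hL hA
    refine ⟨(fun x => max (f (G x)) (g (G x))) :: L',
      MProg.or a1 (a3 _ ⟨f, hf, rfl⟩) (a3 _ ⟨g, hg, rfl⟩),
      fun h hh => List.mem_cons_of_mem _ (a2 h hh), ?_, ?_⟩
    · rintro f' ⟨g', hg', rfl⟩
      rcases List.mem_cons.1 hg' with rfl | hg'
      · exact List.mem_cons_self
      · exact List.mem_cons_of_mem _ (a3 _ ⟨g', hg', rfl⟩)
    · rw [List.length_cons, List.length_cons]
      have : (l.length + 1) * (2 * Fintype.card B + 1) =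
        l.length * (2 * Fintype.card B + 1) + (2 * Fintype.card B + 1) := by ring
      omega

/-- the game instance, with the variables renamed -/
def qt3_G {n : ℕ} (e : Fin n × Bool × Bool ≃ Fin (4 * n)) (d : Bool) (p q : ℕ)
    (I : Set (Fin n) × Set (Con ar (Fin n))) : Set (Con (arP ar) (Fin (4 * n))) :=
  {C | ∃ C' ∈ game d p q I.1 I.2, C = ⟨C'.1, fun j => e (C'.2 j)⟩}

theorem qt3_sat {n : ℕ} (e : Fin n × Bool × Bool ≃ Fin (4 * n)) (d : Bool) (p q : ℕ)
    (I : Set (Fin n) × Set (Con ar (Fin n))) :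
    Sat (relP rel) (qt3_G e d p q I) ↔ Sat (relP rel) (game d p q I.1 I.2) := by
  constructor
  · rintro ⟨x, hx⟩
    exact ⟨fun v => x (e v), fun C' hC' => hx ⟨C'.1, fun j => e (C'.2 j)⟩ ⟨C', hC', rfl⟩⟩
  · rintro ⟨x, hx⟩
    refine ⟨fun v => x (e.symm v), ?_⟩
    rintro C ⟨C', hC', rfl⟩
    have h := hx C' hC'
    show (fun j => x (e.symm (e (C'.2 j)))) ∈ relP rel C'.1
    have h2 : (fun j => x (e.symm (e (C'.2 j)))) = fun j => x (C'.2 j) := by
      funext j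
      rw [Equiv.symm_apply_apply]
    rw [h2]
    exact h

/-- the input bits of a quantified instance -/
def qt3_b (ar : ι → ℕ) (n : ℕ) : (Fin n ⊕ Con ar (Fin n)) →
    (Set (Fin n) × Set (Con ar (Fin n))) → Prop
  | .inl v => fun I => v ∈ I.1
  | .inr c => fun I => c ∈ I.2

/-- the condition on the bits -/
def qt3_c (ar : ι → ℕ) {n : ℕ} (e : Fin n × Bool × Bool ≃ Fin (4 * n)) (d : Bool) (p q : ℕ)
    (C : Con (arP ar) (Fin (4 * n))) : (Fin n ⊕ Con ar (Fin n)) → Prop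
  | .inl v => ∃ s t, C = ⟨.inr (xor d ((s && decide (v.1 = p)) || (t && decide (v.1 = q)))),
      fun _ => e (cp p q s t v)⟩
  | .inr c => ∃ s t, C = ⟨.inl c.1, fun j => e (cp p q s t (c.2 j))⟩

theorem qt3_mem [Fintype ι] {n : ℕ} (e : Fin n × Bool × Bool ≃ Fin (4 * n)) (d : Bool) (p q : ℕ)
    (C : Con (arP ar) (Fin (4 * n))) :
    ∃ A : Finset (Fin n ⊕ Con ar (Fin n)), ∀ I, C ∈ qt3_G e d p q I ↔
      ∃ β ∈ A, qt3_b ar n β I := by
  refine ⟨univ.filter (qt3_c ar e d p q C), fun I => ?_⟩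
  constructor
  · rintro ⟨C', ⟨s, t, c, hc, rfl⟩ | ⟨s, t, v, hv, rfl⟩, rfl⟩
    · exact ⟨.inr c, Finset.mem_filter.2 ⟨Finset.mem_univ _, s, t, rfl⟩, hc⟩
    · exact ⟨.inl v, Finset.mem_filter.2 ⟨Finset.mem_univ _, s, t, rfl⟩, hv⟩
  · rintro ⟨β, hβ, hb⟩
    have hβ2 := (Finset.mem_filter.1 hβ).2
    rcases β with v | c
    · obtain ⟨s, t, h⟩ := hβ2
      exact ⟨⟨.inr (xor d ((s && decide (v.1 = p)) || (t && decide (v.1 = q)))),
        fun _ => cp p q s t v⟩, Or.inr ⟨s, t, v, hb, rfl⟩, h⟩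
    · obtain ⟨s, t, h⟩ := hβ2
      exact ⟨⟨.inl c.1, fun j => cp p q s t (c.2 j)⟩, Or.inl ⟨s, t, c, hb, rfl⟩, h⟩

theorem qt3_num (k C A n c L : ℕ) (hc : c ≤ k * (n + 1) ^ A) (hL : L ≤ C * (4 * n + 1) ^ C) :
    (n + 1) * (n + 1) * (L * (2 * (n + c) + 1)) + ((n + 1) * (n + 1) + 1) ≤
      (C * 4 ^ C * (2 * k + 3) + 2 + C + A + 3) *
        (n + 1) ^ (C * 4 ^ C * (2 * k + 3) + 2 + C + A + 3) := by
  set m := n + 1 with hm
  have hm1 : 1 ≤ m := by omega
  have h1 : L ≤ C * 4 ^ C * m ^ C := by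
    calc L ≤ C * (4 * n + 1) ^ C := hL
      _ ≤ C * (4 * m) ^ C := Nat.mul_le_mul_left _ (Nat.pow_le_pow_left (by omega) _)
      _ = C * 4 ^ C * m ^ C := by rw [mul_pow]; ring
  have hA1 : m ≤ m ^ (A + 1) := by
    calc m = m ^ 1 := (pow_one m).symm
      _ ≤ m ^ (A + 1) := Nat.pow_le_pow_right hm1 (by omega)
  have hA2 : m ^ A ≤ m ^ (A + 1) := Nat.pow_le_pow_right hm1 (by omega)
  have h2 : 2 * (n + c) + 1 ≤ (2 * k + 3) * m ^ (A + 1) := by
    have h3 : c ≤ k * m ^ (A + 1) := hc.trans (Nat.mul_le_mul_left _ hA2)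
    have h4 : (2 * k + 3) * m ^ (A + 1) = 2 * (k * m ^ (A + 1)) + 3 * m ^ (A + 1) := by ring
    omega
  have h3 : L * (2 * (n + c) + 1) ≤ (C * 4 ^ C * (2 * k + 3)) * m ^ (C + A + 1) := by
    calc L * (2 * (n + c) + 1) ≤ (C * 4 ^ C * m ^ C) * ((2 * k + 3) * m ^ (A + 1)) :=
          Nat.mul_le_mul h1 h2
      _ = (C * 4 ^ C * (2 * k + 3)) * m ^ (C + A + 1) := by
          rw [add_assoc C A 1, pow_add m C (A + 1)]; ring
  have h4 : m * m * (L * (2 * (n + c) + 1)) ≤ (C * 4 ^ C * (2 * k + 3)) * m ^ (C + A + 3) := by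
    calc m * m * (L * (2 * (n + c) + 1)) ≤ m * m * ((C * 4 ^ C * (2 * k + 3)) * m ^ (C + A + 1)) :=
          Nat.mul_le_mul_left _ h3
      _ = (C * 4 ^ C * (2 * k + 3)) * m ^ (C + A + 3) := by
          have : C + A + 3 = (C + A + 1) + 2 := by ring
          rw [this, pow_add m (C + A + 1) 2]; ring
  have h5 : m * m + 1 ≤ 2 * m ^ (C + A + 3) := by
    have h6 : m * m ≤ m ^ (C + A + 3) := by
      calc m * m = m ^ 2 := (sq m).symm
        _ ≤ _ := Nat.pow_le_pow_right hm1 (by omega)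
    have h7 : 1 ≤ m * m := Nat.mul_pos hm1 hm1
    omega
  calc m * m * (L * (2 * (n + c) + 1)) + (m * m + 1)
      ≤ (C * 4 ^ C * (2 * k + 3)) * m ^ (C + A + 3) + 2 * m ^ (C + A + 3) := add_le_add h4 h5
    _ = (C * 4 ^ C * (2 * k + 3) + 2) * m ^ (C + A + 3) := by ring
    _ ≤ _ := Nat.mul_le_mul (by omega) (Nat.pow_le_pow_right hm1 (by omega))

theorem qupper [Fintype ι] (d : Bool)
    (hgame : ∀ (n : ℕ) (U : Set (Fin n)) (F : Set (Con ar (Fin n))),
      QTrue rel U F ↔ ∀ p ≤ n, ∀ q ≤ n, Sat (relP rel) (game d p q U F))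
    (hup : ∃ C : ℕ, ∀ n : ℕ, ∃ l : List (Set (Con (arP ar) (Fin n)) → ℝ),
      MProg (conBits (arP ar) (Fin n)) l ∧
      l.length ≤ C * (n + 1) ^ C ∧ (fun F => if Sat (relP rel) F then (0 : ℝ) else 1) ∈ l) :
    ∃ C : ℕ, ∀ n : ℕ, ∃ l : List ((Set (Fin n) × Set (Con ar (Fin n))) → ℝ),
      MProg (qBits ar n) l ∧ l.length ≤ C * (n + 1) ^ C ∧
      (fun I => if QTrue rel I.1 I.2 then (0 : ℝ) else 1) ∈ l := by
  obtain ⟨C, hC⟩ := hup
  obtain ⟨A, hA⟩ := t3_card (ar := ar)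
  refine ⟨C * 4 ^ C * (2 * Fintype.card ι + 3) + 2 + C + A + 3, fun n => ?_⟩
  obtain ⟨l, hl, hlen, hmem⟩ := hC (4 * n)
  have e : Fin n × Bool × Bool ≃ Fin (4 * n) := Fintype.equivOfCardEq (by
    rw [Fintype.card_prod, Fintype.card_prod, Fintype.card_bool, Fintype.card_fin,
      Fintype.card_fin]
    ring)
  have h0 : (fun _ : Set (Fin n) × Set (Con ar (Fin n)) => (0 : ℝ)) ∈ qBits ar n :=
    Or.inr (Or.inr (Or.inl rfl))
  have h1 : (fun _ : Set (Fin n) × Set (Con ar (Fin n)) => (1 : ℝ)) ∈ qBits ar n :=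
    Or.inr (Or.inr (Or.inr rfl))
  have hb : ∀ β, p11_ind (qt3_b ar n β) ∈ qBits ar n := by
    rintro (v | c)
    · exact Or.inl ⟨v, rfl⟩
    · exact Or.inr (Or.inl ⟨c, rfl⟩)
  have s0 : ∀ j ∈ (range (n + 1) ×ˢ range (n + 1) : Finset (ℕ × ℕ)),
      p11_R (qBits ar n) ∅ (l.length * (2 * Fintype.card (Fin n ⊕ Con ar (Fin n)) + 1))
        {p11_ind (fun I : Set (Fin n) × Set (Con ar (Fin n)) =>
          ¬ Sat (relP rel) (game d j.1 j.2 I.1 I.2))} := by
    intro j _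
    refine p11_mono (qt3_transfer (qBits ar n) (qt3_b ar n) h0 h1 hb (qt3_G e d j.1 j.2)
      (fun C => qt3_mem e d j.1 j.2 C) l hl) (Set.Subset.refl _) ?_ le_rfl
    intro f hf
    refine ⟨_, hmem, ?_⟩
    have hf2 : f = p11_ind (fun I : Set (Fin n) × Set (Con ar (Fin n)) =>
          ¬ Sat (relP rel) (game d j.1 j.2 I.1 I.2)) := hf
    rw [hf2]
    funext I
    unfold p11_ind
    have hs := qt3_sat (rel := rel) e d j.1 j.2 I
    by_cases hh : Sat (relP rel) (game d j.1 j.2 I.1 I.2)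
    · rw [if_neg (not_not.2 hh), if_pos (hs.2 hh)]
    · rw [if_pos hh, if_neg (fun h => hh (hs.1 h))]
  have s1 := p11_family (inp := qBits ar n) (range (n + 1) ×ˢ range (n + 1) : Finset (ℕ × ℕ))
    (fun j => p11_ind (fun I : Set (Fin n) × Set (Con ar (Fin n)) =>
          ¬ Sat (relP rel) (game d j.1 j.2 I.1 I.2))) s0
  have s2 := p11_bigor (inp := qBits ar n) (A := {f | ∃ j ∈ (range (n + 1) ×ˢ range (n + 1) :
      Finset (ℕ × ℕ)), f = p11_ind (fun I : Set (Fin n) × Set (Con ar (Fin n)) =>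
          ¬ Sat (relP rel) (game d j.1 j.2 I.1 I.2))}) h0
    (range (n + 1) ×ˢ range (n + 1) : Finset (ℕ × ℕ))
    (fun j I => ¬ Sat (relP rel) (game d j.1 j.2 I.1 I.2)) (fun j hj => ⟨j, hj, rfl⟩)
  obtain ⟨L, hL, -, hL2, hL3⟩ := p11_trans s1 s2 [] MProg.nil
    (fun f hf => absurd hf (Set.notMem_empty f))
  refine ⟨L, hL, ?_, ?_⟩
  · have hcard : (range (n + 1) ×ˢ range (n + 1) : Finset (ℕ × ℕ)).card = (n + 1) * (n + 1) := by
      rw [Finset.card_product, Finset.card_range]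
    rw [hcard, List.length_nil, zero_add, Fintype.card_sum, Fintype.card_fin] at hL3
    exact hL3.trans (qt3_num (Fintype.card ι) C A n _ _ (hA n) hlen)
  · have h3 := hL2 _ rfl
    have e2 : (fun I : Set (Fin n) × Set (Con ar (Fin n)) =>
        if QTrue rel I.1 I.2 then (0 : ℝ) else 1) =
        p11_ind (fun I => ∃ j ∈ (range (n + 1) ×ˢ range (n + 1) : Finset (ℕ × ℕ)),
          ¬ Sat (relP rel) (game d j.1 j.2 I.1 I.2)) := by
      funext I
      unfold p11_ind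
      by_cases hq : QTrue rel I.1 I.2
      · rw [if_pos hq, if_neg]
        rintro ⟨j, hj, hj2⟩
        have hj3 := Finset.mem_product.1 hj
        exact hj2 ((hgame n I.1 I.2).1 hq j.1 (Nat.lt_succ_iff.1 (Finset.mem_range.1 hj3.1)) j.2
          (Nat.lt_succ_iff.1 (Finset.mem_range.1 hj3.2)))
      · rw [if_neg hq, if_pos]
        by_contra hcon
        apply hq
        rw [hgame]
        intro p hp q hq'
        by_contra hs
        exact hcon ⟨(p, q), Finset.mem_product.2 ⟨Finset.mem_range.2 (Nat.lt_succ_iff.2 hp),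
          Finset.mem_range.2 (Nat.lt_succ_iff.2 hq')⟩, hs⟩
    rw [e2]
    exact h3

end H630QS
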